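import Pool.Agent.Refl.Final

/-!
Let `L` be an even positive definite lattice of rank 20 (with Gram matrix `G`) such that
`M = 2U ⊕ L(-1)`, of signature `(2,22)`, is reflective: there is a nonconstant holomorphic modular
form (with a character of finite order) for the discriminant kernel of `O⁺(M)` which vanishes only
on hyperplanes orthogonal to reflective vectors. Then `L` lies in the genus of `2E₈ ⊕ D₄`.
-/

namespace Pool.Agent.Results.MP_f1d0b6_nt.ReflectiveGenus

open Pool.Agent.Refl

theorem result (G : Matrix (Fin 20) (Fin 20) ℤ) (hG : EvenPos G) (h : IsReflective G) :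
    SameGenus G gramE8E8D4 :=
  Pool.Agent.Refl.main hG h

end Pool.Agent.Results.MP_f1d0b6_nt.ReflectiveGenus
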